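import Pool.Agent.R123.Gap.Gapped

/-!
# Wilf equivalence of the gapped versions of 1234, 1243, 2143 (MP_1ac54c, Q1)
-/

namespace Pool.Agent.Results.MP_1ac54c_co.GappedWilf

open Finset R123.Gap

/-- `π` contains the distant pattern obtained from `q = q_1 q_2 q_3 q_4` by placing a square after
the letter number `j+1`, `j ∈ {0,1,2}`: there are positions `i_1 < i_2 < i_3 < i_4` whose entries
are in the same relative order as `q` and with `i_{j+2} - i_{j+1} ≥ 2`. -/
def Contains {n : ℕ} (q : Fin 4 → ℕ) (j : Fin 3) (π : Equiv.Perm (Fin n)) : Prop :=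
  ∃ i : Fin 4 → Fin n, StrictMono i ∧ (∀ a b, π (i a) < π (i b) ↔ q a < q b) ∧
    (i j.castSucc : ℕ) + 2 ≤ (i j.succ : ℕ)

/-- The number of permutations of `[n]` avoiding the distant pattern. -/
noncomputable def count (q : Fin 4 → ℕ) (j : Fin 3) (n : ℕ) : ℕ :=
  Nat.card {π : Equiv.Perm (Fin n) // ¬ Contains q j π}

/-- explicit containment -/
def C (u0 u : Bool) (g0 g1 g2 n : ℕ) (f : ℕ → ℕ) : Prop :=
  ∃ i j a b, i + g0 ≤ j ∧ j + g1 ≤ a ∧ a + g2 ≤ b ∧ b < n ∧ rel u0 (f i) (f j) ∧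
    rel u (f a) (f b) ∧ f i < f a ∧ f i < f b ∧ f j < f a ∧ f j < f b

open Classical in
/-- number of avoiders -/
noncomputable def N (u0 u : Bool) (g0 g1 g2 n : ℕ) : ℕ :=
  #{w : Equiv.Perm (Fin n) | ¬ C u0 u g0 g1 g2 n (V w)}

theorem av12_iff {n : ℕ} (u : Bool) (g1 g2 : ℕ) (w : Equiv.Perm (Fin n)) (hg1 : 1 ≤ g1) :
    ¬ C true u 1 g1 g2 n (V w) ↔ Av12 u g1 g2 w := by
  constructor
  · intro h i j hij hj hlt hI
    obtain ⟨a, b, h1, h2, h3, h4, h5, h6⟩ := hI
    exact h ⟨i, j, a, b, hij, h1, h2, h3, hlt, h6, by omega, by omega, h4, h5⟩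
  · rintro h ⟨i, j, a, b, h1, h2, h3, h4, h5, h6, h7, h8, h9, h10⟩
    exact h i j h1 (by omega) h5 ⟨a, b, h2, h3, h4, h9, h10, h6⟩

theorem av21_iff {n : ℕ} (u : Bool) (g1 g2 : ℕ) (w : Equiv.Perm (Fin n)) (hg1 : 1 ≤ g1) :
    ¬ C false u 1 g1 g2 n (V w) ↔ Av21 u g1 g2 w := by
  constructor
  · intro h i j hij hj hlt hI
    obtain ⟨a, b, h1, h2, h3, h4, h5, h6⟩ := hI
    exact h ⟨i, j, a, b, hij, h1, h2, h3, hlt, h6, h4, h5, by omega, by omega⟩
  · rintro h ⟨i, j, a, b, h1, h2, h3, h4, h5, h6, h7, h8, h9, h10⟩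
    exact h i j h1 (by omega) h5 ⟨a, b, h2, h3, h4, h7, h8, h6⟩

theorem avG12_iff {n : ℕ} (u : Bool) (g2 : ℕ) (w : Equiv.Perm (Fin n)) :
    ¬ C true u 2 1 g2 n (V w) ↔ AvG12 u g2 w := by
  constructor
  · intro h i j hij hj hlt hI
    obtain ⟨a, b, h1, h2, h3, h4, h5, h6⟩ := hI
    exact h ⟨i, j, a, b, hij, h1, h2, h3, hlt, h6, by omega, by omega, h4, h5⟩
  · rintro h ⟨i, j, a, b, h1, h2, h3, h4, h5, h6, h7, h8, h9, h10⟩
    exact h i j h1 (by omega) h5 ⟨a, b, h2, h3, h4, h9, h10, h6⟩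

theorem avG21_iff {n : ℕ} (u : Bool) (g2 : ℕ) (w : Equiv.Perm (Fin n)) :
    ¬ C false u 2 1 g2 n (V w) ↔ AvG21 u g2 w := by
  constructor
  · intro h i j hij hj hlt hI
    obtain ⟨a, b, h1, h2, h3, h4, h5, h6⟩ := hI
    exact h ⟨i, j, a, b, hij, h1, h2, h3, hlt, h6, h4, h5, by omega, by omega⟩
  · rintro h ⟨i, j, a, b, h1, h2, h3, h4, h5, h6, h7, h8, h9, h10⟩
    exact h i j h1 (by omega) h5 ⟨a, b, h2, h3, h4, h7, h8, h6⟩

/-- Theorem A in terms of `N` -/
theorem NA (u : Bool) (g1 g2 n : ℕ) (hg1 : 1 ≤ g1) (hg2 : 1 ≤ g2) :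
    N true u 1 g1 g2 n = N false u 1 g1 g2 n := by
  classical
  have h := card_eq (up := u) (n := n) hg1 hg2 (fun _ => True)
  unfold N
  simp only [and_true] at h
  rw [filter_congr (fun w _ => av12_iff u g1 g2 w hg1),
    filter_congr (fun w _ => av21_iff u g1 g2 w hg1)]
  convert h

/-- Theorem B in terms of `N` -/
theorem NB (u : Bool) (g2 n : ℕ) (hg2 : 1 ≤ g2) :
    N true u 2 1 g2 n = N false u 2 1 g2 n := by
  classical
  have h := cardG_eq (up := u) (n := n) hg2
  unfold N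
  rw [filter_congr (fun w _ => avG12_iff u g2 w), filter_congr (fun w _ => avG21_iff u g2 w)]
  convert h

/-- reverse-complement -/
def rc {n : ℕ} (w : Equiv.Perm (Fin n)) : Equiv.Perm (Fin n) := Fin.revPerm * w * Fin.revPerm

theorem rc_rc {n : ℕ} (w : Equiv.Perm (Fin n)) : rc (rc w) = w := by
  unfold rc
  ext x
  simp

theorem V_rc {n : ℕ} (w : Equiv.Perm (Fin n)) {x : ℕ} (hx : x < n) :
    V (rc w) x = n - 1 - V w (n - 1 - x) := by
  have h1 := V_fin (rc w) ⟨x, hx⟩
  simp only at h1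
  rw [h1]
  unfold rc
  rw [Equiv.Perm.mul_apply, Equiv.Perm.mul_apply, Fin.revPerm_apply, Fin.revPerm_apply,
    Fin.val_rev]
  have h2 := V_fin w (Fin.rev ⟨x, hx⟩)
  rw [Fin.val_rev] at h2
  simp only at h2
  rw [← h2]
  have e : n - (x + 1) = n - 1 - x := by omega
  rw [e]
  omega

theorem C_rc {n : ℕ} (u0 u : Bool) (g0 g1 g2 : ℕ) (hg0 : 1 ≤ g0) (hg1 : 1 ≤ g1) (hg2 : 1 ≤ g2)
    (w : Equiv.Perm (Fin n)) (h : C u0 u g0 g1 g2 n (V (rc w))) :
    C u u0 g2 g1 g0 n (V w) := by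
  obtain ⟨i, j, a, b, h1, h2, h3, h4, h5, h6, h7, h8, h9, h10⟩ := h
  rw [V_rc w (by omega : i < n)] at h5 h7 h8
  rw [V_rc w (by omega : j < n)] at h5 h9 h10
  rw [V_rc w (by omega : a < n)] at h6 h7 h9
  rw [V_rc w (by omega : b < n)] at h6 h8 h10
  have vi := V_lt w (by omega : n - 1 - i < n)
  have vj := V_lt w (by omega : n - 1 - j < n)
  have va := V_lt w (by omega : n - 1 - a < n)
  have vb := V_lt w (by omega : n - 1 - b < n)
  refine ⟨n - 1 - b, n - 1 - a, n - 1 - j, n - 1 - i, by omega, by omega, by omega, by omega,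
    ?_, ?_, by omega, by omega, by omega, by omega⟩
  · cases u
    · have h6' : n - 1 - V w (n - 1 - b) < n - 1 - V w (n - 1 - a) := h6
      change V w (n - 1 - a) < V w (n - 1 - b)
      omega
    · have h6' : n - 1 - V w (n - 1 - a) < n - 1 - V w (n - 1 - b) := h6
      change V w (n - 1 - b) < V w (n - 1 - a)
      omega
  · cases u0
    · have h5' : n - 1 - V w (n - 1 - j) < n - 1 - V w (n - 1 - i) := h5
      change V w (n - 1 - i) < V w (n - 1 - j)
      omega
    · have h5' : n - 1 - V w (n - 1 - i) < n - 1 - V w (n - 1 - j) := h5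
      change V w (n - 1 - j) < V w (n - 1 - i)
      omega

theorem NR (u0 u : Bool) (g0 g1 g2 n : ℕ) (hg0 : 1 ≤ g0) (hg1 : 1 ≤ g1) (hg2 : 1 ≤ g2) :
    N u0 u g0 g1 g2 n = N u u0 g2 g1 g0 n := by
  classical
  unfold N
  apply card_bij' (fun w _ => rc w) (fun w _ => rc w)
  · intro w hw
    rw [mem_filter] at hw ⊢
    exact ⟨mem_univ _, fun h => hw.2 (C_rc u u0 g2 g1 g0 hg2 hg1 hg0 w h)⟩
  · intro w hw
    rw [mem_filter] at hw ⊢
    exact ⟨mem_univ _, fun h => hw.2 (C_rc u0 u g0 g1 g2 hg0 hg1 hg2 w h)⟩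
  · intro w _
    exact rc_rc w
  · intro w _
    exact rc_rc w

/-- the pattern with given parameters -/
def pat (u0 u : Bool) : Fin 4 → ℕ :=
  ![if u0 then 1 else 2, if u0 then 2 else 1, if u then 3 else 4, if u then 4 else 3]

theorem contains_iff {n : ℕ} (u0 u : Bool) (j : Fin 3) (π : Equiv.Perm (Fin n)) :
    Contains (pat u0 u) j π ↔
      C u0 u (if j = 0 then 2 else 1) (if j = 1 then 2 else 1) (if j = 2 then 2 else 1) n (V π) := by
  constructor
  · rintro ⟨i, h1, h2, h3⟩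
    have m01 : i 0 < i 1 := h1 (by decide)
    have m12 : i 1 < i 2 := h1 (by decide)
    have m23 : i 2 < i 3 := h1 (by decide)
    rw [Fin.lt_def] at m01 m12 m23
    have key : ∀ a b : Fin 4, V π (i a) < V π (i b) ↔ pat u0 u a < pat u0 u b := by
      intro a b
      rw [V_fin, V_fin, ← Fin.lt_def]
      exact h2 a b
    refine ⟨i 0, i 1, i 2, i 3, ?_, ?_, ?_, (i 3).isLt, ?_, ?_, ?_, ?_, ?_, ?_⟩
    · fin_cases j
      · simpa using h3
      · simpa using m01
      · simpa using m01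
    · fin_cases j
      · simpa using m12
      · simpa using h3
      · simpa using m12
    · fin_cases j
      · simpa using m23
      · simpa using m23
      · simpa using h3
    · cases u0
      · exact (key 1 0).mpr (by simp [pat])
      · exact (key 0 1).mpr (by simp [pat])
    · cases u
      · exact (key 3 2).mpr (by simp [pat])
      · exact (key 2 3).mpr (by simp [pat])
    · exact (key 0 2).mpr (by cases u0 <;> cases u <;> simp [pat])
    · exact (key 0 3).mpr (by cases u0 <;> cases u <;> simp [pat])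
    · exact (key 1 2).mpr (by cases u0 <;> cases u <;> simp [pat])
    · exact (key 1 3).mpr (by cases u0 <;> cases u <;> simp [pat])
  · rintro ⟨i0, i1, i2, i3, h1, h2, h3, h4, h5, h6, h7, h8, h9, h10⟩
    have g0 : 1 ≤ (if j = 0 then 2 else 1) := by split_ifs <;> omega
    have g1 : 1 ≤ (if j = 1 then 2 else 1) := by split_ifs <;> omega
    have g2 : 1 ≤ (if j = 2 then 2 else 1) := by split_ifs <;> omega
    have l01 : i0 < i1 := by omega
    have l12 : i1 < i2 := by omega
    have l23 : i2 < i3 := by omega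
    refine ⟨![⟨i0, by omega⟩, ⟨i1, by omega⟩, ⟨i2, by omega⟩, ⟨i3, h4⟩], ?_, ?_, ?_⟩
    · rw [Fin.strictMono_iff_lt_succ]
      intro x
      fin_cases x
      · exact l01
      · exact l12
      · exact l23
    · have e0 := V_fin π ⟨i0, by omega⟩
      have e1 := V_fin π ⟨i1, by omega⟩
      have e2 := V_fin π ⟨i2, by omega⟩
      have e3 := V_fin π ⟨i3, h4⟩
      simp only at e0 e1 e2 e3
      intro a b
      rw [Fin.lt_def]
      have h5' : if u0 = true then V π i0 < V π i1 else V π i1 < V π i0 := h5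
      have h6' : if u = true then V π i2 < V π i3 else V π i3 < V π i2 := h6
      fin_cases a <;> fin_cases b <;> cases u0 <;> cases u <;>
        simp [pat, ← e0, ← e1, ← e2, ← e3] at h5' h6' ⊢ <;> omega
    · fin_cases j
      · simpa using h1
      · simpa using h2
      · simpa using h3

theorem count_eq (u0 u : Bool) (j : Fin 3) (n : ℕ) : count (pat u0 u) j n =
    N u0 u (if j = 0 then 2 else 1) (if j = 1 then 2 else 1) (if j = 2 then 2 else 1) n := by
  classical
  unfold count N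
  rw [Nat.card_eq_fintype_card, Fintype.card_subtype]
  congr 1
  ext w
  rw [mem_filter, mem_filter, contains_iff]

/-- MP_1ac54c, Q1: inserting one square after the `j`-th letter (`j = 1,2,3`) of each of
`1234`, `1243`, `2143` gives three pairwise Wilf-equivalent distant patterns. -/
theorem result : ∀ (j : Fin 3) (n : ℕ),
    count ![1, 2, 3, 4] j n = count ![1, 2, 4, 3] j n ∧
    count ![1, 2, 4, 3] j n = count ![2, 1, 4, 3] j n := by
  intro j n
  have p1 : (![1, 2, 3, 4] : Fin 4 → ℕ) = pat true true := rfl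
  have p2 : (![1, 2, 4, 3] : Fin 4 → ℕ) = pat true false := rfl
  have p3 : (![2, 1, 4, 3] : Fin 4 → ℕ) = pat false false := rfl
  rw [p1, p2, p3, count_eq, count_eq, count_eq]
  fin_cases j
  · change N true true 2 1 1 n = N true false 2 1 1 n ∧ N true false 2 1 1 n = N false false 2 1 1 n
    refine ⟨?_, NB false 1 n le_rfl⟩
    rw [NR true true 2 1 1 n (by omega) le_rfl le_rfl, NA true 1 2 n le_rfl (by omega),
      NR false true 1 1 2 n le_rfl le_rfl (by omega)]
  · change N true true 1 2 1 n = N true false 1 2 1 n ∧ N true false 1 2 1 n = N false false 1 2 1 n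
    refine ⟨?_, NA false 2 1 n (by omega) le_rfl⟩
    rw [NA true 2 1 n (by omega) le_rfl, NR false true 1 2 1 n le_rfl (by omega) le_rfl]
  · change N true true 1 1 2 n = N true false 1 1 2 n ∧ N true false 1 1 2 n = N false false 1 1 2 n
    refine ⟨?_, NA false 1 2 n le_rfl (by omega)⟩
    rw [NR true true 1 1 2 n le_rfl le_rfl (by omega), NB true 1 n le_rfl,
      NR false true 2 1 1 n (by omega) le_rfl le_rfl]

end Pool.Agent.Results.MP_1ac54c_co.GappedWilf
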